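import Pool.Agent.Work.MP_d018b2_nt.DMain

/-!
# A positive proportion of the tuples have the conjectured order of magnitude from below
-/

open Finset Filter

namespace Pool.Agent.Results.MP_d018b2_nt.DenseLower

open Pool.Agent.Work.MP_d018b2_nt

lemma card_fiber_le {l k : ℕ} (A : Finset ℕ) (e : Fin l ↪ Fin k) (t : Fin l → ℕ) :
    #{r ∈ Fintype.piFinset fun _ : Fin k => A | r ∘ e = t} ≤ #A ^ (k - l) := by
  classical
  have h := card_le_card_of_injOn (s := {r ∈ Fintype.piFinset fun _ : Fin k => A | r ∘ e = t})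
    (t := Fintype.piFinset fun _ : {i // i ∉ univ.map e} => A) (fun r i => r i)
    (fun r hr => by
      simp only [coe_filter, Fintype.mem_piFinset, Set.mem_ofPred_eq, Fintype.coe_piFinset,
        Set.mem_pi, Set.mem_univ, mem_coe, forall_true_left] at hr ⊢
      exact fun i => hr.1 i)
    (fun r hr r' hr' h => funext fun i => by
      simp only [coe_filter, Set.mem_ofPred_eq] at hr hr'
      by_cases hi : i ∈ univ.map e
      · obtain ⟨j, -, rfl⟩ := mem_map.1 hi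
        exact (congrFun hr.2 j).trans (congrFun hr'.2 j).symm
      · exact congrFun h ⟨i, hi⟩)
  rwa [Fintype.card_piFinset, prod_const, card_univ, Fintype.card_subtype_compl, Fintype.card_fin, Fintype.card_coe,
    card_map, card_univ, Fintype.card_fin] at h

/-- For every `l` there is `κ > 0` such that, for all `b, δ > 0`, there is `c > 0` with: for all
large `x` and every `A ⊆ [1, b log x]` with `|A| ≥ δ log x`, at least `κ |A|^l` of the `l`-tuples of
distinct elements of `A` have a positive singular product and `N(x) ≥ c x (log x)^{-l} 𝔖`. -/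
theorem result (l : ℕ) : ∃ κ : ℝ, 0 < κ ∧ ∀ b δ : ℝ, 0 < b → 0 < δ → ∃ c : ℝ, 0 < c ∧ ∃ X : ℝ,
    ∀ x : ℝ, X ≤ x → ∀ A : Finset ℕ, (∀ a ∈ A, 1 ≤ a ∧ (a : ℝ) ≤ b * Real.log x) →
      δ * Real.log x ≤ (A.card : ℝ) →
      κ * (A.card : ℝ) ^ l ≤ (Set.ncard {r : Fin l → ℕ | Function.Injective r ∧ (∀ j, r j ∈ A) ∧
        0 < sing r ∧ c * (x / Real.log x ^ l * sing r) ≤ (cnt x r : ℝ)} : ℝ) := by
  classical
  obtain ⟨k, hk⟩ := clique l
  refine ⟨1 / (2 ^ (k + 1) * ((k : ℝ) + 1) ^ l), by positivity, fun b δ hb hδ => ?_⟩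
  obtain ⟨c, hc, h⟩ := hk b (δ ^ k / 2 ^ (k + 1)) hb (by positivity)
  obtain ⟨X, hX⟩ := eventually_atTop.1 (h.and (Real.tendsto_log_atTop.eventually_ge_atTop
    ((2 * k + 1) / δ)))
  refine ⟨c, hc, X, fun x hx A hA hδA => ?_⟩
  obtain ⟨h1, h2⟩ := hX x hx
  have hL : 0 < Real.log x := lt_of_lt_of_le (by positivity) h2
  rw [div_le_iff₀' hδ] at h2
  have h3 : 2 * k + 1 ≤ #A := by exact_mod_cast h2.trans hδA
  have hA0 : (0 : ℝ) < #A := by exact_mod_cast (by omega : 0 < #A)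
  have hAH : ∀ a ∈ A, 1 ≤ a ∧ a ≤ ⌊b * Real.log x⌋₊ := fun a ha =>
    ⟨(hA a ha).1, Nat.le_floor (hA a ha).2⟩
  set G := {t ∈ Fintype.piFinset fun _ : Fin l => A | Function.Injective t ∧ t ∉ Bad l b c x} with hG
  have g1 : (#G : ℝ) ≤ (Set.ncard {r : Fin l → ℕ | Function.Injective r ∧ (∀ j, r j ∈ A) ∧
      0 < sing r ∧ c * (x / Real.log x ^ l * sing r) ≤ (cnt x r : ℝ)} : ℝ) := by
    rw [← Set.ncard_coe_finset]
    refine Nat.cast_le.2 (Set.ncard_le_ncard (fun t ht => ?_)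
      ((Fintype.piFinset fun _ : Fin l => A).finite_toSet.subset fun t ht => by
        simpa using ht.2.1))
    simp only [hG, coe_filter, Fintype.mem_piFinset, Set.mem_ofPred_eq, Bad, mem_filter, mem_Tup,
      not_and, not_lt] at ht
    exact ⟨ht.2.1, ht.1, sing_pos (Del_pos (fun i => (hAH _ (ht.1 i)).1) ht.2.1),
      ht.2.2 ⟨fun i => hAH _ (ht.1 i), ht.2.1⟩⟩
  refine le_trans ?_ g1
  have g2 : #{r ∈ Fintype.piFinset fun _ : Fin k => A | Function.Injective r}
      ≤ #{r ∈ Tup (Fin k) ⌊b * Real.log x⌋₊ | ∀ e : Fin l ↪ Fin k, r ∘ e ∈ Bad l b c x}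
        + ∑ e : Fin l ↪ Fin k, ∑ t ∈ G, #{r ∈ Fintype.piFinset fun _ : Fin k => A | r ∘ e = t} := by
    refine le_trans (card_le_card (t := _ ∪ univ.biUnion fun e : Fin l ↪ Fin k => G.biUnion fun t =>
      {r ∈ Fintype.piFinset fun _ : Fin k => A | r ∘ e = t}) fun r hr => ?_)
      ((card_union_le _ _).trans (Nat.add_le_add_left (card_biUnion_le.trans
        (sum_le_sum fun e _ => card_biUnion_le)) _))
    obtain ⟨a1, a2⟩ := mem_filter.1 hr
    by_cases a3 : ∀ e : Fin l ↪ Fin k, r ∘ e ∈ Bad l b c x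
    · exact mem_union_left _ (mem_filter.2
        ⟨mem_Tup.2 ⟨fun i => hAH _ (Fintype.mem_piFinset.1 a1 i), a2⟩, a3⟩)
    · obtain ⟨e, he⟩ := not_forall.1 a3
      exact mem_union_right _ (mem_biUnion.2 ⟨e, mem_univ _, mem_biUnion.2 ⟨r ∘ e, mem_filter.2
        ⟨Fintype.mem_piFinset.2 fun j => Fintype.mem_piFinset.1 a1 _, a2.comp e.injective, he⟩,
        mem_filter.2 ⟨a1, rfl⟩⟩⟩)
  have g3 : #A ^ k ≤ 2 ^ k * #{r ∈ Fintype.piFinset fun _ : Fin k => A | Function.Injective r} := by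
    refine le_trans ?_ (Nat.mul_le_mul_left _ (card_inj_ge A k))
    rw [← mul_pow]; exact Nat.pow_le_pow_left (by omega) _
  have g4 : (∑ e : Fin l ↪ Fin k, ∑ t ∈ G,
      #{r ∈ Fintype.piFinset fun _ : Fin k => A | r ∘ e = t}) * #A ^ l
        ≤ (k + 1) ^ l * #G * #A ^ k := by
    rcases lt_or_ge k l with hl | hl
    · have : IsEmpty (Fin l ↪ Fin k) := ⟨fun e => by
        have := Fintype.card_le_of_embedding e; simp at this; omega⟩
      simp
    calc _ ≤ (∑ e : Fin l ↪ Fin k, ∑ t ∈ G, #A ^ (k - l)) * #A ^ l := by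
          gcongr; exact card_fiber_le A _ _
      _ = k.descFactorial l * #G * #A ^ k := by
          simp only [sum_const, card_univ, Fintype.card_embedding_eq, Fintype.card_fin, smul_eq_mul]
          rw [mul_assoc, mul_assoc, ← pow_add, Nat.sub_add_cancel hl, mul_assoc]
      _ ≤ _ := by
          gcongr
          exact (Nat.descFactorial_le_pow _ _).trans (Nat.pow_le_pow_left (Nat.le_succ _) _)
  have g5 : δ ^ k / 2 ^ (k + 1) * Real.log x ^ k ≤ #A ^ k / 2 ^ (k + 1) := by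
    rw [div_mul_eq_mul_div, ← mul_pow]; gcongr
  have g2' := (Nat.cast_le (α := ℝ)).2 g2
  have g3' := (Nat.cast_le (α := ℝ)).2 g3
  have g4' := (Nat.cast_le (α := ℝ)).2 g4
  rw [Nat.cast_add] at g2'
  rw [Nat.cast_mul] at g4'
  generalize ((∑ e : Fin l ↪ Fin k, ∑ t ∈ G,
    #{r ∈ Fintype.piFinset fun _ : Fin k => A | r ∘ e = t} : ℕ) : ℝ) = S at g2' g4'
  push_cast at g3' g4'
  have g6 : (#A : ℝ) ^ k / 2 ^ (k + 1) ≤ S := by
    have : (#A : ℝ) ^ k / 2 ^ k ≤ _ := (div_le_iff₀' (by positivity)).2 g3'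
    have e : (#A : ℝ) ^ k / 2 ^ k = #A ^ k / 2 ^ (k + 1) + #A ^ k / 2 ^ (k + 1) := by
      field_simp; ring
    linarith only [this, e, g2', g5, h1]
  have g7 := (mul_le_mul_of_nonneg_right g6 (by positivity : 0 ≤ (#A : ℝ) ^ l)).trans g4'
  rw [div_mul_eq_mul_div, one_mul, div_le_iff₀ (by positivity)]
  rw [div_mul_eq_mul_div, div_le_iff₀ (by positivity)] at g7
  refine le_of_mul_le_mul_left ?_ (by positivity : 0 < (#A : ℝ) ^ k)
  linarith only [g7]

end Pool.Agent.Results.MP_d018b2_nt.DenseLower
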