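import Pool.Agent.Work.MP_d018b2_nt.M.Fin

set_option autoImplicit false

open Classical in
theorem Pool.Agent.Results.MP_d018b2_nt.MoebiusOnPrimes.result :
    ∀ (ℓ A : ℕ) (ε : ℝ), 1 ≤ ℓ → 0 < ε → ∃ X : ℝ, ∀ x : ℝ, X ≤ x →
      ∀ (r : Fin ℓ → ℕ) (b : Fin ℓ → ℤ),
        (∀ j, 1 ≤ r j ∧ (r j : ℝ) ≤ Real.log x ^ A ∧ |(b j : ℝ)| ≤ Real.log x ^ A ∧
          IsCoprime (r j : ℤ) (b j)) →
        (∀ i j, r i = r j → b i = b j → i = j) →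
      ∀ f : ℕ → ℂ, (∀ m n : ℕ, Nat.Coprime m n → f (m * n) = f m * f n) → (∀ n, ‖f n‖ ≤ 1) →
        (∀ p : ℕ, p.Prime → f p = -1) →
      ∀ α : ℕ → ℂ, (∀ q, ‖α q‖ ≤ 1) →
      ∀ S : Finset (ℕ × ℤ),
        (∀ L ∈ S, 1 ≤ L.1 ∧ (L.1 : ℝ) ≤ Real.log x ^ A ∧ |(L.2 : ℝ)| ≤ Real.log x ^ A ∧
          IsCoprime (L.1 : ℤ) L.2 ∧
          ε * (x / (Real.log x) ^ ℓ *
              ∏' p : Nat.Primes,
                ((1 - (((Finset.range (p : ℕ)).filter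
                        (fun q : ℕ => ((p : ℕ) : ℤ) ∣ ∏ j, ((q : ℤ) * r j + b j))).card : ℝ) / (p : ℝ))
                  / (1 - 1 / (p : ℝ)) ^ ℓ)) <
            ‖∑ q ∈ (Finset.range ⌈2 * x⌉₊).filter (fun q : ℕ =>
                x ≤ (q : ℝ) ∧ (q : ℝ) < 2 * x ∧ ∀ j, ((q : ℤ) * r j + b j).toNat.Prime),
              α q * f ((q : ℤ) * L.1 + L.2).toNat‖) →
        (S.card : ℝ) ≤ ε * Real.log x ^ ℓ := by
  intro ℓ A ε hℓ hε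
  obtain ⟨X, H⟩ := Pool.Agent.Work.MP_d018b2_nt.M.fin ℓ A hℓ hε
  refine ⟨X, fun x hx r b h1 h2 f f1 f2 f3 α hα S hS =>
    H x hx (fun j => (r j, b j)) h1 (fun i j e => h2 i j (congrArg Prod.fst e) (congrArg Prod.snd e))
      f ⟨f1, f2, f3⟩ α hα S fun L hL => ?_⟩
  obtain ⟨u1, u2, u3, u4, u5⟩ := hS L hL
  refine ⟨⟨u1, u2, u3, u4⟩, ?_⟩
  simpa only [Pool.Agent.Work.MP_d018b2_nt.M.sg, Pool.Agent.Work.MP_d018b2_nt.M.lc,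
    Pool.Agent.Work.MP_d018b2_nt.M.rt, mul_comm (r _ : ℤ), mul_comm (L.1 : ℤ)] using u5
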