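import Pool.Agent.Work.MP_d018b2_nt.Z.Fin1

set_option autoImplicit false

open Classical in
theorem Pool.Agent.Results.MP_d018b2_nt.PrimeAlmostPrime.result :
    ∀ (A : ℕ) (c : ℝ), 0 < c → ∃ k₀ : ℕ, ∀ k : ℕ, k₀ ≤ k → ∀ ε : ℝ, 0 < ε → ε ≤ 1 →
      ∃ X : ℝ, ∀ x : ℝ, X ≤ x →
        ∀ (r₁ : ℕ) (b₁ : ℤ), 1 ≤ r₁ → (r₁ : ℝ) ≤ Real.log x ^ A → |(b₁ : ℝ)| ≤ Real.log x ^ A →
          IsCoprime (r₁ : ℤ) b₁ →
        ∀ E : Finset ℕ,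
          (∀ p ∈ E, p.Prime ∧ Real.exp (Real.log x ^ c) ≤ (p : ℝ) ∧
            (p : ℝ) ≤ Real.exp (Real.log x ^ (1 / 4 : ℝ))) →
          1 / 2 ≤ ∑ p ∈ E, (p : ℝ)⁻¹ →
        ∀ S : Finset (ℕ × ℤ),
          (∀ L ∈ S, 1 ≤ L.1 ∧ (L.1 : ℝ) ≤ Real.log x ^ A ∧ |(L.2 : ℝ)| ≤ Real.log x ^ A ∧
            IsCoprime (L.1 : ℤ) L.2 ∧
            ε * (x / (Real.log x) ^ 2 * (∑ T ∈ E.powersetCard k, ∏ s ∈ T, (s : ℝ)⁻¹) *
              ∏' p : Nat.Primes,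
                ((1 - (((Finset.range (p : ℕ)).filter (fun q : ℕ =>
                    ((p : ℕ) : ℤ) ∣ ((q : ℤ) * r₁ + b₁) * ((q : ℤ) * L.1 + L.2))).card : ℝ) / (p : ℝ))
                  / (1 - 1 / (p : ℝ)) ^ 2)) <
            |(((Finset.range ⌈2 * x⌉₊).filter
                (fun q : ℕ => x ≤ (q : ℝ) ∧ (q : ℝ) < 2 * x ∧
                  (∃ p : ℕ, p.Prime ∧ (q : ℤ) * r₁ + b₁ = p) ∧
                  (∃ p : ℕ, p.Prime ∧ ∃ T ∈ E.powersetCard k,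
                    (q : ℤ) * L.1 + L.2 = (p : ℤ) * ∏ s ∈ T, (s : ℤ)))).card : ℝ)
              - x / (Real.log x) ^ 2 * (∑ T ∈ E.powersetCard k, ∏ s ∈ T, (s : ℝ)⁻¹) *
                ∏' p : Nat.Primes,
                  ((1 - (((Finset.range (p : ℕ)).filter (fun q : ℕ =>
                      ((p : ℕ) : ℤ) ∣ ((q : ℤ) * r₁ + b₁) * ((q : ℤ) * L.1 + L.2))).card : ℝ) / (p : ℝ))
                    / (1 - 1 / (p : ℝ)) ^ 2)|) →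
          ε ^ 2 * (∑ T ∈ E.powersetCard k, ∏ s ∈ T, (s : ℝ)⁻¹) * (S.card : ℝ)
            ≤ 10 ^ 31 * Real.log x ^ 2 := by
  intro A c hc
  obtain ⟨k₀, H⟩ := Pool.Agent.Work.MP_d018b2_nt.Z.fin A hc
  refine ⟨k₀, fun k hk ε hε h₁ => ?_⟩
  obtain ⟨X, H⟩ := H k hk ε hε h₁
  refine ⟨X, fun x hx r₁ b₁ h1 h2 h3 h4 E hE big S hS =>
    H x hx (r₁, b₁) ⟨h1, h2, h3, h4⟩ E hE big S fun L hL => ?_⟩
  obtain ⟨u1, u2, u3, u4, u5⟩ := hS L hL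
  refine ⟨⟨u1, u2, u3, u4⟩, ?_⟩
  simpa only [Pool.Agent.Work.MP_678620_nt.locF, Pool.Agent.Work.MP_678620_nt.om,
    Pool.Agent.Work.MP_678620_nt.ek, Pool.Agent.Work.MP_678620_nt.esym,
    Pool.Agent.Work.MP_678620_nt.PE, Finset.powersetCard_zero, Finset.sum_singleton,
    Finset.prod_empty, one_mul, mul_one, Finset.mem_singleton, exists_eq_left,
    mul_comm (r₁ : ℤ), mul_comm (L.1 : ℤ)] using u5
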